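import Mathlib

set_option autoImplicit false

/-!
Smoothing: among the products of `j` factors `1 + a X` and `l` factors `1 - b X` with the sums of the `a`
and of the `b` fixed, the second derivative at a small `t ≥ 0` is largest if all `a` are equal and all `b`
are equal.
-/

namespace Pool.Agent.X206.TU

open Polynomial

/-- product of the `1 + a X` -/
noncomputable def pp (u : Multiset ℝ) : ℝ[X] := (u.map fun a => 1 + C a * X).prod

/-- product of the `1 - a X` -/
noncomputable def mm (v : Multiset ℝ) : ℝ[X] := (v.map fun a => 1 - C a * X).prod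

/-- second derivative at `t` -/
noncomputable def D2 (t : ℝ) (G : ℝ[X]) : ℝ := (derivative (derivative G)).eval t

theorem pp_cons (a : ℝ) (u : Multiset ℝ) : pp (a ::ₘ u) = (1 + C a * X) * pp u := by
  unfold pp; rw [Multiset.map_cons, Multiset.prod_cons]

theorem mm_cons (a : ℝ) (v : Multiset ℝ) : mm (a ::ₘ v) = (1 - C a * X) * mm v := by
  unfold mm; rw [Multiset.map_cons, Multiset.prod_cons]

theorem pp_zero : pp 0 = 1 := by simp [pp]

theorem mm_zero : mm 0 = 1 := by simp [mm]

theorem pp_add (u w : Multiset ℝ) : pp (u + w) = pp u * pp w := by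
  unfold pp; rw [Multiset.map_add, Multiset.prod_add]

theorem mm_add (u w : Multiset ℝ) : mm (u + w) = mm u * mm w := by
  unfold mm; rw [Multiset.map_add, Multiset.prod_add]

theorem pp_facts {t : ℝ} (ht : 0 ≤ t) (u : Multiset ℝ) (hu : ∀ a ∈ u, 0 ≤ a) :
    0 < (pp u).eval t ∧ 0 ≤ (derivative (pp u)).eval t ∧ 0 ≤ D2 t (pp u) := by
  unfold D2
  induction u using Multiset.induction_on with
  | empty => simp [pp_zero]
  | cons a u ih =>
    obtain ⟨h1, h2, h3⟩ := ih fun b hb => hu b (Multiset.mem_cons_of_mem hb)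
    have ha := hu a (Multiset.mem_cons_self a u)
    rw [pp_cons]
    simp only [derivative_mul, derivative_add, derivative_one, derivative_C, derivative_X, zero_mul, zero_add,
      mul_one, eval_mul, eval_add, eval_one, eval_C, eval_X]
    refine ⟨by positivity, by positivity, by positivity⟩

theorem mm_facts {t : ℝ} (ht : 0 ≤ t) (v : Multiset ℝ) (hv : ∀ a ∈ v, 0 ≤ a) (hs : t * v.sum ≤ 1 / 3) :
    1 - t * v.sum ≤ (mm v).eval t ∧ (mm v).eval t ≤ 1 ∧ (derivative (mm v)).eval t ≤ 0 ∧
      -v.sum ≤ (derivative (mm v)).eval t ∧ 0 ≤ D2 t (mm v) := by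
  unfold D2
  induction v using Multiset.induction_on with
  | empty => simp [mm_zero]
  | cons a v ih =>
    rw [Multiset.sum_cons] at hs ⊢
    have ha := hv a (Multiset.mem_cons_self a v)
    have hv' : ∀ b ∈ v, 0 ≤ b := fun b hb => hv b (Multiset.mem_cons_of_mem hb)
    have hsum : 0 ≤ v.sum := Multiset.sum_nonneg hv'
    have hta : 0 ≤ t * a := mul_nonneg ht ha
    have hts : 0 ≤ t * v.sum := mul_nonneg ht hsum
    obtain ⟨h1, h2, h3, h4, h5⟩ := ih hv' (by nlinarith)
    rw [mm_cons]
    simp only [derivative_mul, derivative_sub, derivative_one, derivative_C, derivative_X, zero_mul, zero_add,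
      mul_one, eval_mul, eval_add, eval_sub, eval_one, eval_C, eval_X, zero_sub, eval_neg, derivative_add,
      derivative_neg, neg_zero]
    set B := (mm v).eval t
    set B1 := (derivative (mm v)).eval t
    set B2 := (derivative (derivative (mm v))).eval t
    have hB : 0 ≤ B := by nlinarith
    have hat : 0 ≤ 1 - a * t := by nlinarith
    have hat1 : 1 - a * t ≤ 1 := by nlinarith
    refine ⟨?_, ?_, ?_, ?_, ?_⟩
    · nlinarith [mul_le_mul_of_nonneg_left h1 hat, mul_nonneg hta hts]
    · nlinarith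
    · nlinarith [mul_nonneg ha hB, mul_nonneg hat (neg_nonneg.2 h3)]
    · nlinarith [mul_nonneg ha (sub_nonneg.2 h2), mul_le_mul_of_nonneg_left h4 hat, mul_nonneg hta hsum]
    · nlinarith [mul_nonneg ha (neg_nonneg.2 h3), mul_nonneg hat h5]

theorem keyM {t : ℝ} (ht : 0 ≤ t) {u v : Multiset ℝ} (hu : ∀ a ∈ u, 0 ≤ a) (hv : ∀ a ∈ v, 0 ≤ a)
    (hs : t * v.sum ≤ 1 / 3) : 0 ≤ D2 t (X ^ 2 * (pp u * mm v)) := by
  obtain ⟨a0, a1, a2⟩ := pp_facts ht u hu
  obtain ⟨b1, _, b3, b4, b5⟩ := mm_facts ht v hv hs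
  unfold D2 at *
  simp only [derivative_mul, derivative_add, derivative_X_pow, eval_mul, eval_add, eval_pow, eval_X,
    eval_C, derivative_C, zero_mul, zero_add, Nat.cast_ofNat, Nat.add_one_sub_one, pow_one, derivative_X,
    mul_one]
  set A := (pp u).eval t
  set A1 := (derivative (pp u)).eval t
  set A2 := (derivative (derivative (pp u))).eval t
  set B := (mm v).eval t
  set B1 := (derivative (mm v)).eval t
  set B2 := (derivative (derivative (mm v))).eval t
  have h1 : 0 ≤ B + 2 * (t * B1) := by nlinarith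
  have hB : 0 ≤ B := by nlinarith
  have h2 : 0 ≤ 2 * B + t * B1 := by nlinarith
  have h3 := mul_nonneg (mul_nonneg ht ht) (mul_nonneg a2 hB)
  have h4 := mul_nonneg (mul_nonneg ht ht) (mul_nonneg a0.le b5)
  have h5 := mul_nonneg a0.le h1
  have h6 := mul_nonneg (mul_nonneg ht a1) h2
  have e : eval t (C (2 : ℝ)) = 2 := eval_C
  simp only [e] at *
  nlinarith

theorem D2_add (t : ℝ) (F G : ℝ[X]) : D2 t (F + G) = D2 t F + D2 t G := by
  unfold D2; rw [derivative_add, derivative_add, eval_add]

theorem D2_C_mul (t c : ℝ) (F : ℝ[X]) : D2 t (C c * F) = c * D2 t F := by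
  unfold D2; rw [derivative_C_mul, derivative_C_mul, eval_C_mul]

theorem pair_step {t : ℝ} {M : ℝ[X]} (hM : 0 ≤ D2 t (X ^ 2 * M)) {a b c d : ℝ} (hd : c + d = a + b)
    (h : a * b ≤ c * d) : D2 t ((1 + C a * X) * (1 + C b * X) * M) ≤ D2 t ((1 + C c * X) * (1 + C d * X) * M) := by
  have e : (1 + C c * X) * (1 + C d * X) * M =
      (1 + C a * X) * (1 + C b * X) * M + C (c * d - a * b) * (X ^ 2 * M) := by
    have e1 : (C c : ℝ[X]) + C d = C a + C b := by rw [← C_add, hd, C_add]
    rw [C_sub, C_mul, C_mul]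
    linear_combination (X * M) * e1
  rw [e, D2_add, D2_C_mul]
  have := mul_nonneg (sub_nonneg.2 h) hM
  linarith

theorem exists_le_mean {u : Multiset ℝ} {c : ℝ} (h0 : u ≠ 0) (h : u.sum ≤ (Multiset.card u : ℝ) * c) :
    ∃ a ∈ u, a ≤ c := by
  by_contra hc
  push Not at hc
  have h1 : ∀ (w : Multiset ℝ), w ≠ 0 → (∀ a ∈ w, c < a) → (Multiset.card w : ℝ) * c < w.sum := by
    intro w
    induction w using Multiset.induction_on with
    | empty => intro h; exact absurd rfl h
    | cons a w ih =>
      intro _ hw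
      have ha := hw a (Multiset.mem_cons_self a w)
      rw [Multiset.sum_cons, Multiset.card_cons]
      push_cast
      by_cases hw0 : w = 0
      · subst hw0; simpa using ha
      · have := ih hw0 fun b hb => hw b (Multiset.mem_cons_of_mem hb)
        linarith
  exact absurd h (not_le.2 (h1 u h0 hc))

theorem exists_ge_mean {u : Multiset ℝ} {c : ℝ} (h0 : u ≠ 0) (h : (Multiset.card u : ℝ) * c ≤ u.sum) :
    ∃ a ∈ u, c ≤ a := by
  by_contra hc
  push Not at hc
  have h1 : ∀ (w : Multiset ℝ), w ≠ 0 → (∀ a ∈ w, a < c) → w.sum < (Multiset.card w : ℝ) * c := by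
    intro w
    induction w using Multiset.induction_on with
    | empty => intro h; exact absurd rfl h
    | cons a w ih =>
      intro _ hw
      have ha := hw a (Multiset.mem_cons_self a w)
      rw [Multiset.sum_cons, Multiset.card_cons]
      push_cast
      by_cases hw0 : w = 0
      · subst hw0; simpa using ha
      · have := ih hw0 fun b hb => hw b (Multiset.mem_cons_of_mem hb)
        linarith
  exact absurd h (not_le.2 (h1 u h0 hc))

/-- the pair used in a smoothing step -/
theorem split_pair {l : ℕ} {u : Multiset ℝ} {c : ℝ} (hcard : Multiset.card u = l + 2)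
    (hsum : u.sum = ((l : ℝ) + 2) * c) : ∃ (a b : ℝ) (w : Multiset ℝ), u = a ::ₘ b ::ₘ w ∧ a ≤ c ∧ c ≤ b ∧
      Multiset.card w = l ∧ w.sum = ((l : ℝ) + 2) * c - a - b := by
  have hu0 : u ≠ 0 := by rintro rfl; simp at hcard
  obtain ⟨a, ha, hac⟩ := exists_le_mean (c := c) hu0 (by rw [hcard, hsum]; push_cast; rfl)
  obtain ⟨u1, rfl⟩ := Multiset.exists_cons_of_mem ha
  rw [Multiset.card_cons] at hcard
  rw [Multiset.sum_cons] at hsum
  have hc1 : Multiset.card u1 = l + 1 := by omega
  have hu1 : u1 ≠ 0 := by rintro rfl; simp at hc1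
  obtain ⟨b, hb, hcb⟩ := exists_ge_mean (c := c) hu1 (by rw [hc1]; push_cast; linarith)
  obtain ⟨w, rfl⟩ := Multiset.exists_cons_of_mem hb
  rw [Multiset.card_cons] at hc1
  rw [Multiset.sum_cons] at hsum
  exact ⟨a, b, w, rfl, hac, hcb, by omega, by linarith⟩

theorem smooth_u {t : ℝ} (ht : 0 ≤ t) {c : ℝ} (hc : 0 ≤ c) {v : Multiset ℝ} (hv : ∀ a ∈ v, 0 ≤ a)
    (hs : t * v.sum ≤ 1 / 3) : ∀ (l : ℕ) (u w : Multiset ℝ), Multiset.card u = l → (∀ a ∈ u, 0 ≤ a) →
    (∀ a ∈ w, 0 ≤ a) → u.sum = (l : ℝ) * c →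
    D2 t (pp u * (pp w * mm v)) ≤ D2 t ((1 + C c * X) ^ l * (pp w * mm v)) := by
  intro l
  induction l with
  | zero =>
    intro u w hu _ _ _
    rw [Multiset.card_eq_zero] at hu
    subst hu
    rw [pp_zero, pow_zero]
  | succ l ih =>
    intro u w hcard hu hw hsum
    rcases l with _ | l
    · obtain ⟨a, rfl⟩ := Multiset.card_eq_one.1 hcard
      have : a = c := by simpa using hsum
      subst this
      refine le_of_eq ?_
      congr 2
      simp [pp]
    · obtain ⟨a, b, u2, rfl, hac, hcb, hcard2, hsum2⟩ := split_pair (l := l) (c := c) hcard (by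
        rw [hsum]; push_cast; ring)
      have ha := hu a (Multiset.mem_cons_self _ _)
      have hu2 : ∀ x ∈ u2, 0 ≤ x := fun x hx =>
        hu x (Multiset.mem_cons_of_mem (Multiset.mem_cons_of_mem hx))
      have hd : 0 ≤ a + b - c := by linarith
      have hM : 0 ≤ D2 t (X ^ 2 * (pp (u2 + w) * mm v)) := keyM ht (fun x hx => by
        rcases Multiset.mem_add.1 hx with h | h
        · exact hu2 x h
        · exact hw x h) hv hs
      have h1 := pair_step (a := a) (b := b) (c := c) (d := a + b - c) hM (by ring)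
        (by nlinarith [mul_nonneg (sub_nonneg.2 hac) (sub_nonneg.2 hcb)])
      have h2 := ih ((a + b - c) ::ₘ u2) (c ::ₘ w) (by rw [Multiset.card_cons, hcard2])
        (fun x hx => by
          rcases Multiset.mem_cons.1 hx with h | h
          · rw [h]; exact hd
          · exact hu2 x h)
        (fun x hx => by
          rcases Multiset.mem_cons.1 hx with h | h
          · rw [h]; exact hc
          · exact hw x h)
        (by rw [Multiset.sum_cons, hsum2]; push_cast; ring)
      have e1 : pp (a ::ₘ b ::ₘ u2) * (pp w * mm v) = (1 + C a * X) * (1 + C b * X) * (pp (u2 + w) * mm v) := by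
        rw [pp_cons, pp_cons, pp_add]; ring
      have e2 : (1 + C c * X) * (1 + C (a + b - c) * X) * (pp (u2 + w) * mm v) =
          pp ((a + b - c) ::ₘ u2) * (pp (c ::ₘ w) * mm v) := by
        rw [pp_cons, pp_cons, pp_add]; ring
      have e3 : (1 + C c * X) ^ (l + 1) * (pp (c ::ₘ w) * mm v) = (1 + C c * X) ^ (l + 1 + 1) * (pp w * mm v) := by
        rw [pp_cons]; ring
      rw [e1, ← e3]
      rw [e2] at h1
      exact h1.trans h2

theorem smooth_v {t : ℝ} (ht : 0 ≤ t) {c : ℝ} (hc : 0 ≤ c) {u : Multiset ℝ} (hu : ∀ a ∈ u, 0 ≤ a) :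
    ∀ (l : ℕ) (v w : Multiset ℝ), Multiset.card v = l → (∀ a ∈ v, 0 ≤ a) →
    (∀ a ∈ w, 0 ≤ a) → v.sum = (l : ℝ) * c → t * (v.sum + w.sum) ≤ 1 / 3 →
    D2 t (mm v * (pp u * mm w)) ≤ D2 t ((1 - C c * X) ^ l * (pp u * mm w)) := by
  intro l
  induction l with
  | zero =>
    intro v w hv _ _ _ _
    rw [Multiset.card_eq_zero] at hv
    subst hv
    rw [mm_zero, pow_zero]
  | succ l ih =>
    intro v w hcard hv hw hsum hs
    rcases l with _ | l
    · obtain ⟨a, rfl⟩ := Multiset.card_eq_one.1 hcard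
      have : a = c := by simpa using hsum
      subst this
      refine le_of_eq ?_
      congr 2
      simp [mm]
    · obtain ⟨a, b, v2, rfl, hac, hcb, hcard2, hsum2⟩ := split_pair (l := l) (c := c) hcard (by
        rw [hsum]; push_cast; ring)
      have ha := hv a (Multiset.mem_cons_self _ _)
      have hb := hv b (Multiset.mem_cons_of_mem (Multiset.mem_cons_self _ _))
      have hv2 : ∀ x ∈ v2, 0 ≤ x := fun x hx =>
        hv x (Multiset.mem_cons_of_mem (Multiset.mem_cons_of_mem hx))
      have hd : 0 ≤ a + b - c := by linarith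
      rw [Multiset.sum_cons, Multiset.sum_cons] at hs
      have hM : 0 ≤ D2 t (X ^ 2 * (pp u * mm (v2 + w))) := keyM ht hu (fun x hx => by
        rcases Multiset.mem_add.1 hx with h | h
        · exact hv2 x h
        · exact hw x h) (by
          rw [Multiset.sum_add]
          nlinarith [mul_nonneg ht ha, mul_nonneg ht hb])
      have h1 := pair_step (a := -a) (b := -b) (c := -c) (d := -(a + b - c)) hM (by ring)
        (by nlinarith [mul_nonneg (sub_nonneg.2 hac) (sub_nonneg.2 hcb)])
      have h2 := ih ((a + b - c) ::ₘ v2) (c ::ₘ w) (by rw [Multiset.card_cons, hcard2])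
        (fun x hx => by
          rcases Multiset.mem_cons.1 hx with h | h
          · rw [h]; exact hd
          · exact hv2 x h)
        (fun x hx => by
          rcases Multiset.mem_cons.1 hx with h | h
          · rw [h]; exact hc
          · exact hw x h)
        (by rw [Multiset.sum_cons, hsum2]; push_cast; ring)
        (by
          rw [Multiset.sum_cons, Multiset.sum_cons]
          refine le_trans (le_of_eq ?_) hs
          ring)
      have e1 : mm (a ::ₘ b ::ₘ v2) * (pp u * mm w) = (1 + C (-a) * X) * (1 + C (-b) * X) * (pp u * mm (v2 + w)) := by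
        rw [mm_cons, mm_cons, mm_add, C_neg, C_neg]; ring
      have e2 : (1 + C (-c) * X) * (1 + C (-(a + b - c)) * X) * (pp u * mm (v2 + w)) =
          mm ((a + b - c) ::ₘ v2) * (pp u * mm (c ::ₘ w)) := by
        rw [mm_cons, mm_cons, mm_add, C_neg, C_neg]; ring
      have e3 : (1 - C c * X) ^ (l + 1) * (pp u * mm (c ::ₘ w)) = (1 - C c * X) ^ (l + 1 + 1) * (pp u * mm w) := by
        rw [mm_cons]; ring
      rw [e1, ← e3]
      rw [e2] at h1
      exact h1.trans h2

theorem pp_replicate (l : ℕ) (c : ℝ) : pp (Multiset.replicate l c) = (1 + C c * X) ^ l := by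
  unfold pp; rw [Multiset.map_replicate, Multiset.prod_replicate]

/-- both groups of zeros equalised -/
theorem smooth {t : ℝ} (ht : 0 ≤ t) {S : ℝ} {u v : Multiset ℝ} {j l : ℕ} (hj : 1 ≤ j) (hl : 1 ≤ l)
    (hu : ∀ a ∈ u, 0 ≤ a) (hv : ∀ a ∈ v, 0 ≤ a) (huj : Multiset.card u = j) (hvl : Multiset.card v = l)
    (hus : u.sum = S) (hvs : v.sum = S) (hs : t * S ≤ 1 / 3) :
    D2 t (pp u * mm v) ≤ D2 t ((1 + C (S / j) * X) ^ j * (1 - C (S / l) * X) ^ l) := by
  have hj0 : (0 : ℝ) < j := by exact_mod_cast hj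
  have hl0 : (0 : ℝ) < l := by exact_mod_cast hl
  have hS : 0 ≤ S := by rw [← hus]; exact Multiset.sum_nonneg hu
  have h1 := smooth_u ht (c := S / j) (by positivity) hv (by rw [hvs]; exact hs) j u 0 huj hu (by simp)
    (by rw [hus]; field_simp)
  rw [pp_zero, one_mul] at h1
  have h2 := smooth_v ht (c := S / l) (by positivity) (u := Multiset.replicate j (S / j)) (fun a ha => by
      rw [Multiset.eq_of_mem_replicate ha]; positivity) l v 0 hvl hv (by simp) (by rw [hvs]; field_simp)
    (by rw [hvs]; simpa using hs)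
  rw [mm_zero, mul_one, pp_replicate, mul_comm (mm v), mul_comm ((1 - C (S / (l : ℝ)) * X) ^ l)] at h2
  exact h1.trans h2

end Pool.Agent.X206.TU
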