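import Pool.Agent.X206.TU.A

set_option autoImplicit false

/-!
The second derivative of `(1 + aX)^j (1 - bX)^l` with `ja = lb`.
-/

namespace Pool.Agent.X206.TU

open Polynomial

theorem deriv1 {a b S : ℝ} {p r : ℕ} (ha : ((p : ℝ) + 1) * a = S) (hb : ((r : ℝ) + 1) * b = S) :
    derivative ((1 + C a * X) ^ (p + 1) * (1 - C b * X) ^ (r + 1)) =
      C (-(S * (a + b))) * (X * ((1 + C a * X) ^ p * (1 - C b * X) ^ r)) := by
  rw [derivative_mul, derivative_pow_succ, derivative_pow_succ]
  simp only [derivative_add, derivative_sub, derivative_one, derivative_mul, derivative_C, derivative_X,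
    zero_mul, zero_add, mul_one, zero_sub]
  have ha' : (C (p : ℝ) + 1 : ℝ[X]) * C a = C S := by rw [← C_1, ← C_add, ← C_mul, ha]
  have hb' : (C (r : ℝ) + 1 : ℝ[X]) * C b = C S := by rw [← C_1, ← C_add, ← C_mul, hb]
  simp only [C_neg, C_mul, C_add, C_1]
  rw [pow_succ (1 + C a * X) p, pow_succ (1 - C b * X) r]
  linear_combination ((1 + C a * X) ^ p * (1 - C b * X) ^ r * (1 - C b * X)) * ha' -
    ((1 + C a * X) ^ p * (1 - C b * X) ^ r * (1 + C a * X)) * hb'

theorem D2_zero {a b S : ℝ} {p r : ℕ} (ha : ((p : ℝ) + 1) * a = S) (hb : ((r : ℝ) + 1) * b = S) :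
    D2 0 ((1 + C a * X) ^ (p + 1) * (1 - C b * X) ^ (r + 1)) = -(S * (a + b)) := by
  unfold D2
  rw [deriv1 ha hb, derivative_C_mul, derivative_mul, derivative_X, eval_C_mul]
  simp

theorem D2_formula {a b S t : ℝ} {p r : ℕ} (ha : ((p : ℝ) + 2) * a = S) (hb : ((r : ℝ) + 2) * b = S) :
    D2 t ((1 + C a * X) ^ (p + 2) * (1 - C b * X) ^ (r + 2)) =
      S * (a + b) * ((1 + a * t) ^ p * (1 - b * t) ^ r * ((S * (a + b) - a * b) * t ^ 2 - 1)) := by
  unfold D2
  rw [deriv1 (p := p + 1) (r := r + 1) (a := a) (b := b) (S := S) (by push_cast; linarith) (by push_cast; linarith),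
    derivative_C_mul, derivative_mul, derivative_mul, derivative_pow_succ, derivative_pow_succ, derivative_X,
    eval_C_mul]
  simp only [derivative_add, derivative_sub, derivative_one, derivative_mul, derivative_C, derivative_X,
    zero_mul, zero_add, mul_one, zero_sub, eval_add, eval_mul, eval_sub, eval_pow, eval_one, eval_C, eval_X,
    one_mul, eval_neg]
  rw [pow_succ (1 + a * t) p, pow_succ (1 - b * t) r]
  linear_combination (-(S * (a + b)) * t * ((1 + a * t) ^ p * (1 - b * t) ^ r * (1 - b * t))) * ha +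
    (S * (a + b) * t * ((1 + a * t) ^ p * (1 - b * t) ^ r * (1 + a * t))) * hb

end Pool.Agent.X206.TU
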