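import Mathlib

set_option autoImplicit false

/-!
The normalised second derivative of the candidate.
-/

namespace Pool.Agent.X206.TU

/-- `q''(x₀ + y/n)/K` for `q = Q/‖Q‖`, `m = k + 2` -/
noncomputable def EE (k : ℕ) (y : ℝ) : ℝ :=
  (1 - y / (2 * k + 4)) ^ k * (1 + y / (2 * k + 6)) ^ (k + 1) * (y ^ 2 / (2 * k + 6) - 1)

theorem prod_le {k : ℕ} {y : ℝ} (h1 : -(2 * (k : ℝ) + 6) ≤ y) (h2 : y ≤ 2 * k + 4) :
    0 ≤ (1 - y / (2 * k + 4)) ^ k * (1 + y / (2 * k + 6)) ^ (k + 1) ∧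
    (1 - y / (2 * k + 4)) ^ k * (1 + y / (2 * k + 6)) ^ (k + 1) ≤
      Real.exp (y / (((k : ℝ) + 2) * (k + 3))) := by
  have hk : (0 : ℝ) ≤ k := Nat.cast_nonneg k
  have hU : 0 ≤ 1 - y / (2 * k + 4) := by
    rw [sub_nonneg, div_le_one (by positivity)]; exact h2
  have hW : 0 ≤ 1 + y / (2 * k + 6) := by
    have : -1 ≤ y / (2 * k + 6) := by rw [le_div_iff₀ (by positivity)]; linarith
    linarith
  refine ⟨by positivity, ?_⟩
  have e1 : 1 - y / (2 * k + 4) ≤ Real.exp (-(y / (2 * k + 4))) := by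
    have := Real.add_one_le_exp (-(y / (2 * k + 4)))
    linarith
  have e2 : 1 + y / (2 * k + 6) ≤ Real.exp (y / (2 * k + 6)) := by
    have := Real.add_one_le_exp (y / (2 * k + 6))
    linarith
  calc (1 - y / (2 * k + 4)) ^ k * (1 + y / (2 * k + 6)) ^ (k + 1)
      ≤ Real.exp (-(y / (2 * k + 4))) ^ k * Real.exp (y / (2 * k + 6)) ^ (k + 1) :=
        mul_le_mul (pow_le_pow_left₀ hU e1 k) (pow_le_pow_left₀ hW e2 _) (by positivity) (by positivity)
    _ = Real.exp (y / (((k : ℝ) + 2) * (k + 3))) := by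
        rw [← Real.exp_nat_mul, ← Real.exp_nat_mul, ← Real.exp_add]
        congr 1
        push_cast
        field_simp
        ring

/-- the negative part outside the short interval -/
theorem neg_le_one {k : ℕ} {y : ℝ} (h1 : -(2 * (k : ℝ) + 6) ≤ y) (h2 : y ≤ 2 * k + 4)
    (h3 : y ≤ 0 ∨ 2 / ((k : ℝ) + 2) ≤ y) : -EE k y ≤ 1 := by
  have hk : (0 : ℝ) ≤ k := Nat.cast_nonneg k
  obtain ⟨p0, p1⟩ := prod_le h1 h2
  unfold EE
  set P := (1 - y / (2 * k + 4)) ^ k * (1 + y / (2 * k + 6)) ^ (k + 1)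
  by_cases hv : 1 ≤ y ^ 2 / (2 * k + 6)
  · nlinarith [mul_nonneg p0 (sub_nonneg.2 hv)]
  · push Not at hv
    have hv0 : 0 ≤ y ^ 2 / (2 * k + 6) := by positivity
    have h4 : -(P * (y ^ 2 / (2 * k + 6) - 1)) ≤
        Real.exp (y / (((k : ℝ) + 2) * (k + 3))) * (1 - y ^ 2 / (2 * k + 6)) := by
      have := mul_le_mul_of_nonneg_right p1 (sub_nonneg.2 hv.le)
      linarith
    refine h4.trans ?_
    set a := y / (((k : ℝ) + 2) * (k + 3)) with ha
    rcases h3 with h3 | h3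
    · have ha0 : a ≤ 0 := by rw [ha]; exact div_nonpos_of_nonpos_of_nonneg h3 (by positivity)
      have he : Real.exp a ≤ 1 := Real.exp_le_one_iff.2 ha0
      nlinarith [Real.exp_pos a]
    · have hy0 : 0 < y := lt_of_lt_of_le (by positivity) h3
      have h5 : a ≤ y ^ 2 / (2 * k + 6) := by
        rw [ha, div_le_div_iff₀ (by positivity) (by positivity)]
        rw [div_le_iff₀ (by positivity)] at h3
        nlinarith [mul_le_mul_of_nonneg_left h3 (mul_nonneg hy0.le (show (0 : ℝ) ≤ k + 3 by positivity))]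
      have h6 : 1 - y ^ 2 / (2 * k + 6) ≤ Real.exp (-a) := by
        have := Real.add_one_le_exp (-a)
        linarith
      calc Real.exp a * (1 - y ^ 2 / (2 * k + 6)) ≤ Real.exp a * Real.exp (-a) :=
            mul_le_mul_of_nonneg_left h6 (Real.exp_pos a).le
        _ = 1 := by rw [← Real.exp_add]; simp

/-- the negative part on the short interval -/
theorem neg_le_exp {k : ℕ} {y : ℝ} (h1 : 0 ≤ y) (h2 : y ≤ 2 / ((k : ℝ) + 2)) :
    -EE k y ≤ Real.exp (2 / (((k : ℝ) + 2) ^ 2 * (k + 3))) := by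
  have hk : (0 : ℝ) ≤ k := Nat.cast_nonneg k
  have h2' : y ≤ 1 := h2.trans (by rw [div_le_one (by positivity)]; linarith)
  obtain ⟨p0, p1⟩ := prod_le (k := k) (y := y) (by linarith) (by linarith)
  have p2 : Real.exp (y / (((k : ℝ) + 2) * (k + 3))) ≤ Real.exp (2 / (((k : ℝ) + 2) ^ 2 * (k + 3))) := by
    rw [Real.exp_le_exp, div_le_div_iff₀ (by positivity) (by positivity)]
    rw [le_div_iff₀ (by positivity)] at h2
    nlinarith [mul_le_mul_of_nonneg_right h2 (show (0 : ℝ) ≤ (k + 2) * (k + 3) by positivity)]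
  unfold EE
  set P := (1 - y / (2 * k + 4)) ^ k * (1 + y / (2 * k + 6)) ^ (k + 1)
  have hv0 : 0 ≤ y ^ 2 / (2 * k + 6) := by positivity
  nlinarith [mul_nonneg p0 hv0]

/-- tangent bound -/
theorem tang {A B N ys y : ℝ} {k1 k2 : ℕ} (hA : ys < A) (hB : 0 < B) (hN : 0 < N) (hys : 0 < ys)
    (hys2 : N < ys ^ 2) (hy0 : 0 ≤ y) (hyA : y ≤ A) (hyN : N ≤ y ^ 2)
    (hfin : (1 - ys / A) ^ k1 * (1 + ys / B) ^ k2 * (ys ^ 2 / N - 1) ≤
      1 - (-(k1 : ℝ) / (A - ys) + k2 / (B + ys) + 2 * ys / (ys ^ 2 - N)) * (y - ys)) :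
    (1 - y / A) ^ k1 * (1 + y / B) ^ k2 * (y ^ 2 / N - 1) ≤ 1 := by
  have hA0 : 0 < A := hys.trans hA
  set d := y - ys with hd
  have hAy : 0 < A - ys := by linarith
  have hBy : 0 < B + ys := by linarith
  have hNy : 0 < ys ^ 2 - N := by linarith
  have f1 : 1 - y / A ≤ (1 - ys / A) * Real.exp (-(d / (A - ys))) := by
    have h := Real.add_one_le_exp (-(d / (A - ys)))
    have h2 : 0 < 1 - ys / A := by rw [sub_pos, div_lt_one hA0]; exact hA
    have h3 := mul_le_mul_of_nonneg_left h h2.le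
    refine le_trans (le_of_eq ?_) h3
    rw [hd]
    field_simp
    ring
  have f1' : 0 ≤ 1 - y / A := by rw [sub_nonneg, div_le_one hA0]; exact hyA
  have f2 : 1 + y / B ≤ (1 + ys / B) * Real.exp (d / (B + ys)) := by
    have h := Real.add_one_le_exp (d / (B + ys))
    have h2 : 0 < 1 + ys / B := by positivity
    have h3 := mul_le_mul_of_nonneg_left h h2.le
    refine le_trans (le_of_eq ?_) h3
    rw [hd]
    field_simp
    ring
  have f2' : 0 ≤ 1 + y / B := by positivity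
  have hyy : N ≤ y * ys := by
    have h1 : N ^ 2 ≤ (y * ys) ^ 2 := by
      rw [mul_pow]
      nlinarith [mul_le_mul hyN hys2.le hN.le (by positivity)]
    exact (abs_le_of_sq_le_sq' h1 (by positivity)).2
  have f3 : y ^ 2 / N - 1 ≤ (ys ^ 2 / N - 1) * Real.exp (2 * ys * d / (ys ^ 2 - N)) := by
    have h := Real.add_one_le_exp (ys * d / (ys ^ 2 - N))
    have h0 : 0 ≤ ys * d / (ys ^ 2 - N) + 1 := by
      have : ys * d / (ys ^ 2 - N) + 1 = (y * ys - N) / (ys ^ 2 - N) := by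
        rw [hd]; field_simp; ring
      rw [this]
      exact div_nonneg (by linarith) hNy.le
    have h2 := pow_le_pow_left₀ h0 h 2
    have h3 : Real.exp (ys * d / (ys ^ 2 - N)) ^ 2 = Real.exp (2 * ys * d / (ys ^ 2 - N)) := by
      rw [← Real.exp_nat_mul]
      congr 1
      push_cast
      ring
    rw [h3] at h2
    have h4 : 0 < ys ^ 2 / N - 1 := by
      rw [sub_pos, one_lt_div hN]; exact hys2
    refine le_trans ?_ (mul_le_mul_of_nonneg_left h2 h4.le)
    have h5 : (ys ^ 2 / N - 1) * (ys * d / (ys ^ 2 - N) + 1) ^ 2 = (y * ys - N) ^ 2 / (N * (ys ^ 2 - N)) := by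
      rw [hd]; field_simp; ring
    rw [h5, div_sub_one hN.ne', div_le_div_iff₀ hN (by positivity)]
    nlinarith [mul_nonneg (mul_nonneg hN.le hN.le) (sq_nonneg (y - ys))]
  have f3' : 0 ≤ y ^ 2 / N - 1 := by rw [sub_nonneg, one_le_div hN]; exact hyN
  have g1 : 0 < 1 - ys / A := by rw [sub_pos, div_lt_one hA0]; exact hA
  have g3 : 0 < ys ^ 2 / N - 1 := by rw [sub_pos, one_lt_div hN]; exact hys2
  set ε := -(k1 : ℝ) / (A - ys) + k2 / (B + ys) + 2 * ys / (ys ^ 2 - N) with hε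
  calc (1 - y / A) ^ k1 * (1 + y / B) ^ k2 * (y ^ 2 / N - 1)
      ≤ ((1 - ys / A) * Real.exp (-(d / (A - ys)))) ^ k1 * ((1 + ys / B) * Real.exp (d / (B + ys))) ^ k2 *
        ((ys ^ 2 / N - 1) * Real.exp (2 * ys * d / (ys ^ 2 - N))) :=
        mul_le_mul (mul_le_mul (pow_le_pow_left₀ f1' f1 k1) (pow_le_pow_left₀ f2' f2 k2) (by positivity)
          (by positivity)) f3 f3' (by positivity)
    _ = (1 - ys / A) ^ k1 * (1 + ys / B) ^ k2 * (ys ^ 2 / N - 1) * Real.exp (ε * d) := by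
        have : Real.exp (ε * d) = Real.exp (-(d / (A - ys))) ^ k1 * Real.exp (d / (B + ys)) ^ k2 *
            Real.exp (2 * ys * d / (ys ^ 2 - N)) := by
          rw [← Real.exp_nat_mul, ← Real.exp_nat_mul, ← Real.exp_add, ← Real.exp_add]
          congr 1
          rw [hε]
          ring
        rw [this, mul_pow, mul_pow]
        ring
    _ ≤ (1 - ε * d) * Real.exp (ε * d) := mul_le_mul_of_nonneg_right hfin (Real.exp_pos _).le
    _ ≤ Real.exp (-(ε * d)) * Real.exp (ε * d) := by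
        refine mul_le_mul_of_nonneg_right ?_ (Real.exp_pos _).le
        have := Real.add_one_le_exp (-(ε * d))
        linarith
    _ = 1 := by rw [← Real.exp_add]; simp

theorem exp65 : (33 : ℝ) / 10 ≤ Real.exp (6 / 5) := by
  have h1 := Real.exp_one_gt_d9
  have h2 := Real.quadratic_le_exp_of_nonneg (x := 1 / 5) (by norm_num)
  have h3 : Real.exp (6 / 5) = Real.exp 1 * Real.exp (1 / 5) := by
    rw [← Real.exp_add]; norm_num
  rw [h3]
  nlinarith

theorem exp54 : (345 : ℝ) / 100 ≤ Real.exp (5 / 4) := by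
  have h1 := Real.exp_one_gt_d9
  have h2 := Real.quadratic_le_exp_of_nonneg (x := 1 / 4) (by norm_num)
  have h3 : Real.exp (5 / 4) = Real.exp 1 * Real.exp (1 / 4) := by
    rw [← Real.exp_add]; norm_num
  rw [h3]
  nlinarith

/-- right lobe, `m ≥ 6` -/
theorem right_large {k : ℕ} (hk : 4 ≤ k) {y : ℝ} (h0 : 0 ≤ y) (h2 : y ≤ 2 * k + 4)
    (hv : 1 < y ^ 2 / (2 * k + 6)) : EE k y ≤ 1 := by
  have hk4 : (4 : ℝ) ≤ k := by exact_mod_cast hk
  set v := y ^ 2 / (2 * k + 6) with hvdef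
  have hU : 0 ≤ 1 - y / (2 * k + 4) := by
    rw [sub_nonneg, div_le_one (by positivity)]; exact h2
  have hW : 0 ≤ 1 + y / (2 * k + 6) := by positivity
  have e1 : (1 - y / (2 * k + 4)) * (1 + y / (2 * k + 6)) ≤
      Real.exp (-((2 * y + y ^ 2) / (4 * (k + 2) * (k + 3)))) := by
    have := Real.add_one_le_exp (-((2 * y + y ^ 2) / (4 * (k + 2) * (k + 3))))
    refine le_trans (le_of_eq ?_) this
    field_simp
    ring
  have e2 : 1 + y / (2 * k + 6) ≤ Real.exp (y / (2 * k + 6)) := by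
    have := Real.add_one_le_exp (y / (2 * k + 6))
    linarith
  have hP : (1 - y / (2 * k + 4)) ^ k * (1 + y / (2 * k + 6)) ^ (k + 1) ≤
      Real.exp (-(k / (2 * (k + 2)) * v) + y / (((k : ℝ) + 2) * (k + 3))) := by
    calc (1 - y / (2 * k + 4)) ^ k * (1 + y / (2 * k + 6)) ^ (k + 1) =
          ((1 - y / (2 * k + 4)) * (1 + y / (2 * k + 6))) ^ k * (1 + y / (2 * k + 6)) := by
          rw [mul_pow, pow_succ]; ring
      _ ≤ Real.exp (-((2 * y + y ^ 2) / (4 * (k + 2) * (k + 3)))) ^ k * Real.exp (y / (2 * k + 6)) :=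
          mul_le_mul (pow_le_pow_left₀ (mul_nonneg hU hW) e1 k) e2 hW (by positivity)
      _ = _ := by
          rw [← Real.exp_nat_mul, ← Real.exp_add, hvdef]
          congr 1
          field_simp
          ring
  have hcoef : (1 : ℝ) / 3 ≤ k / (2 * (k + 2)) := by
    rw [div_le_div_iff₀ (by norm_num) (by positivity)]; linarith
  have hy2 : y ^ 2 = v * (2 * k + 6) := by rw [hvdef]; field_simp
  have hyv : y / (((k : ℝ) + 2) * (k + 3)) ≤ 9 / 400 * (v + 4) := by
    rw [div_le_iff₀ (by positivity)]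
    refine (abs_le_of_sq_le_sq' (a := y) ?_ (by positivity)).2
    rw [hy2]
    have h5 : (252 : ℝ) ≤ (k + 2) ^ 2 * (k + 3) := by nlinarith [sq_nonneg ((k : ℝ) - 4)]
    have h6 : 16 * v ≤ (v + 4) ^ 2 := by nlinarith [sq_nonneg (v - 4)]
    have h7 : v * (2 * k + 6) ≤ (81 / 160000) * (16 * v) * (((k : ℝ) + 2) ^ 2 * (k + 3)) * (k + 3) := by
      have : 0 ≤ v * ((k : ℝ) + 3) := by positivity
      nlinarith
    have h8 : (0 : ℝ) ≤ (((k : ℝ) + 2) ^ 2 * (k + 3)) * (k + 3) := by positivity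
    calc v * (2 * k + 6) ≤ _ := h7
      _ = (81 / 160000) * ((16 * v) * ((((k : ℝ) + 2) ^ 2 * (k + 3)) * (k + 3))) := by ring
      _ ≤ (81 / 160000) * ((v + 4) ^ 2 * ((((k : ℝ) + 2) ^ 2 * (k + 3)) * (k + 3))) := by
          have := mul_le_mul_of_nonneg_right h6 h8
          linarith
      _ = _ := by ring
  have hT : (v - 1) ≤ Real.exp (v / 3 - 9 / 400 * (v + 4)) := by
    have h9 := Real.add_one_le_exp (v / 3 - 9 / 400 * (v + 4) - 6 / 5)
    have h10 : 0 ≤ v / 3 - 9 / 400 * (v + 4) - 1 / 5 ∨ v / 3 - 9 / 400 * (v + 4) - 1 / 5 < 0 := le_or_gt _ _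
    rcases h10 with h10 | h10
    · have h11 : Real.exp (v / 3 - 9 / 400 * (v + 4)) = Real.exp (6 / 5) *
          Real.exp (v / 3 - 9 / 400 * (v + 4) - 6 / 5) := by rw [← Real.exp_add]; ring_nf
      rw [h11]
      have h12 : 33 / 10 * (v / 3 - 9 / 400 * (v + 4) - 1 / 5) ≤
          Real.exp (6 / 5) * Real.exp (v / 3 - 9 / 400 * (v + 4) - 6 / 5) :=
        mul_le_mul exp65 (by linarith) h10 (Real.exp_pos _).le
      refine le_trans ?_ h12
      linarith
    · exfalso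
      linarith
  unfold EE
  have hv1 : 0 ≤ v - 1 := by linarith
  have hexp : Real.exp (-(k / (2 * (k + 2)) * v) + y / (((k : ℝ) + 2) * (k + 3))) ≤
      Real.exp (-(v / 3 - 9 / 400 * (v + 4))) := by
    rw [Real.exp_le_exp]
    have : v / 3 ≤ k / (2 * (k + 2)) * v := by nlinarith
    linarith
  calc _ ≤ Real.exp (-(v / 3 - 9 / 400 * (v + 4))) * Real.exp (v / 3 - 9 / 400 * (v + 4)) :=
        mul_le_mul (hP.trans hexp) hT hv1 (Real.exp_pos _).le
    _ = 1 := by rw [← Real.exp_add]; simp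

/-- left lobe, `m ≥ 5` -/
theorem left_large {k : ℕ} (hk : 3 ≤ k) {z : ℝ} (h0 : 0 ≤ z) (h2 : z ≤ 2 * k + 6)
    (hv : 1 < z ^ 2 / (2 * k + 6)) : EE k (-z) ≤ 1 := by
  have hk4 : (3 : ℝ) ≤ k := by exact_mod_cast hk
  set v := z ^ 2 / (2 * k + 6) with hvdef
  have hU : 0 ≤ 1 + z / (2 * k + 4) := by positivity
  have hW : 0 ≤ 1 - z / (2 * k + 6) := by
    rw [sub_nonneg, div_le_one (by positivity)]; exact h2
  have e1 : (1 + z / (2 * k + 4)) * (1 - z / (2 * k + 6)) ≤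
      Real.exp (-((z ^ 2 - 2 * z) / (4 * (k + 2) * (k + 3)))) := by
    have := Real.add_one_le_exp (-((z ^ 2 - 2 * z) / (4 * (k + 2) * (k + 3))))
    refine le_trans (le_of_eq ?_) this
    field_simp
    ring
  have e2 : 1 - z / (2 * k + 6) ≤ Real.exp (-(z / (2 * k + 6))) := by
    have := Real.add_one_le_exp (-(z / (2 * k + 6)))
    linarith
  have hP : (1 + z / (2 * k + 4)) ^ k * (1 - z / (2 * k + 6)) ^ (k + 1) ≤
      Real.exp (-(k / (2 * (k + 2)) * v) - z / (((k : ℝ) + 2) * (k + 3))) := by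
    calc (1 + z / (2 * k + 4)) ^ k * (1 - z / (2 * k + 6)) ^ (k + 1) =
          ((1 + z / (2 * k + 4)) * (1 - z / (2 * k + 6))) ^ k * (1 - z / (2 * k + 6)) := by
          rw [mul_pow, pow_succ]; ring
      _ ≤ Real.exp (-((z ^ 2 - 2 * z) / (4 * (k + 2) * (k + 3)))) ^ k * Real.exp (-(z / (2 * k + 6))) :=
          mul_le_mul (pow_le_pow_left₀ (mul_nonneg hU hW) e1 k) e2 hW (by positivity)
      _ = _ := by
          rw [← Real.exp_nat_mul, ← Real.exp_add, hvdef]
          congr 1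
          field_simp
          ring
  have hcoef : (3 : ℝ) / 10 ≤ k / (2 * (k + 2)) := by
    rw [div_le_div_iff₀ (by norm_num) (by positivity)]; linarith
  have hT : (v - 1) ≤ Real.exp (3 / 10 * v) := by
    have h9 := Real.add_one_le_exp (3 / 10 * v - 5 / 4)
    rcases le_or_gt 0 (3 / 10 * v - 1 / 4) with h10 | h10
    · have h11 : Real.exp (3 / 10 * v) = Real.exp (5 / 4) * Real.exp (3 / 10 * v - 5 / 4) := by
        rw [← Real.exp_add]; ring_nf
      rw [h11]
      have h12 : 345 / 100 * (3 / 10 * v - 1 / 4) ≤ Real.exp (5 / 4) * Real.exp (3 / 10 * v - 5 / 4) :=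
        mul_le_mul exp54 (by linarith) h10 (Real.exp_pos _).le
      refine le_trans ?_ h12
      linarith
    · exfalso
      linarith
  unfold EE
  have hv1 : 0 ≤ v - 1 := by linarith
  have hexp : Real.exp (-(k / (2 * (k + 2)) * v) - z / (((k : ℝ) + 2) * (k + 3))) ≤
      Real.exp (-(3 / 10 * v)) := by
    rw [Real.exp_le_exp]
    have h1 : 3 / 10 * v ≤ k / (2 * (k + 2)) * v := by nlinarith
    have h2 : 0 ≤ z / (((k : ℝ) + 2) * (k + 3)) := by positivity
    linarith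
  rw [neg_div, sub_neg_eq_add, neg_div, ← sub_eq_add_neg, neg_sq]
  calc _ ≤ Real.exp (-(3 / 10 * v)) * Real.exp (3 / 10 * v) :=
        mul_le_mul (hP.trans hexp) hT hv1 (Real.exp_pos _).le
    _ = 1 := by rw [← Real.exp_add]; simp

end Pool.Agent.X206.TU
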