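import Pool.Agent.X206.TU.B
import Pool.Agent.X206.TU.C

set_option autoImplicit false

/-!
Bounds for `EE`, the norm, and the normal form of a polynomial at a point.
-/

namespace Pool.Agent.X206.TU

open Polynomial

theorem EE_le_one {k : ℕ} (hk : 1 ≤ k) {y : ℝ} (h1 : -(2 * (k : ℝ) + 6) ≤ y) (h2 : y ≤ 2 * k + 4) :
    EE k y ≤ 1 := by
  have hk0 : (0 : ℝ) ≤ k := Nat.cast_nonneg k
  by_cases hv : y ^ 2 / (2 * k + 6) ≤ 1
  · obtain ⟨p0, _⟩ := prod_le h1 h2
    unfold EE
    nlinarith [mul_nonneg p0 (sub_nonneg.2 hv)]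
  · push Not at hv
    have hN : 2 * (k : ℝ) + 6 < y ^ 2 := by rwa [one_lt_div (by positivity)] at hv
    rcases le_or_gt 0 y with h0 | h0
    · rcases Nat.lt_or_ge k 4 with hk4 | hk4
      · have h3 : 2 < y := by nlinarith
        interval_cases k
        · have := tang (A := 6) (B := 8) (N := 8) (ys := 19 / 4) (y := y) (k1 := 1) (k2 := 2) (by norm_num)
            (by norm_num) (by norm_num) (by norm_num) (by norm_num) h0 (by norm_num at h2; linarith)
            (by norm_num at hN; linarith) (by norm_num at h2 ⊢; linarith)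
          unfold EE
          norm_num at this ⊢
          exact this
        · have := tang (A := 8) (B := 10) (N := 10) (ys := 11 / 2) (y := y) (k1 := 2) (k2 := 3) (by norm_num)
            (by norm_num) (by norm_num) (by norm_num) (by norm_num) h0 (by norm_num at h2; linarith)
            (by norm_num at hN; linarith) (by norm_num at h2 ⊢; linarith)
          unfold EE
          norm_num at this ⊢
          exact this
        · have := tang (A := 10) (B := 12) (N := 12) (ys := 6) (y := y) (k1 := 3) (k2 := 4) (by norm_num)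
            (by norm_num) (by norm_num) (by norm_num) (by norm_num) h0 (by norm_num at h2; linarith)
            (by norm_num at hN; linarith) (by norm_num at h2 ⊢; linarith)
          unfold EE
          norm_num at this ⊢
          exact this
      · exact right_large hk4 h0 h2 hv
    · obtain ⟨z, rfl⟩ : ∃ z, y = -z := ⟨-y, by ring⟩
      have hz0 : 0 ≤ z := by linarith
      have hz1 : z ≤ 2 * k + 6 := by linarith
      rw [neg_sq] at hv hN
      rcases Nat.lt_or_ge k 3 with hk3 | hk3
      · interval_cases k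
        · have := tang (A := 8) (B := 6) (N := 8) (ys := 5) (y := z) (k1 := 2) (k2 := 1) (by norm_num)
            (by norm_num) (by norm_num) (by norm_num) (by norm_num) hz0 (by norm_num at hz1; linarith)
            (by norm_num at hN; linarith) (by norm_num at hz1 ⊢; linarith)
          unfold EE
          norm_num at this ⊢
          refine le_trans (le_of_eq ?_) this
          ring
        · have := tang (A := 10) (B := 8) (N := 10) (ys := 11 / 2) (y := z) (k1 := 3) (k2 := 2) (by norm_num)
            (by norm_num) (by norm_num) (by norm_num) (by norm_num) hz0 (by norm_num at hz1; linarith)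
            (by norm_num at hN; linarith) (by norm_num at hz1 ⊢; linarith)
          unfold EE
          norm_num at this ⊢
          refine le_trans (le_of_eq ?_) this
          ring
      · exact left_large hk3 hz0 hz1 hv

theorem EE_zero (k : ℕ) : EE k 0 = -1 := by unfold EE; simp

theorem EE_cont (k : ℕ) : Continuous (EE k) := by
  unfold EE
  fun_prop

/-- the maximum of `|EE k|` is attained in `[0, 2/(k+2)]` -/
theorem exists_max {k : ℕ} (hk : 1 ≤ k) : ∃ y1 : ℝ, 0 ≤ y1 ∧ y1 ≤ 2 / ((k : ℝ) + 2) ∧ 1 ≤ -EE k y1 ∧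
    -EE k y1 ≤ Real.exp (2 / (((k : ℝ) + 2) ^ 2 * (k + 3))) ∧
    ∀ y : ℝ, -(2 * (k : ℝ) + 6) ≤ y → y ≤ 2 * k + 4 → |EE k y| ≤ -EE k y1 := by
  have hk0 : (0 : ℝ) ≤ k := Nat.cast_nonneg k
  have h0 : (0 : ℝ) ≤ 2 / ((k : ℝ) + 2) := by positivity
  obtain ⟨y1, hy1, hmax⟩ := isCompact_Icc.exists_isMaxOn (s := Set.Icc 0 (2 / ((k : ℝ) + 2)))
    ⟨0, le_rfl, h0⟩ (f := fun y => -EE k y) (EE_cont k).neg.continuousOn
  have h1 : 1 ≤ -EE k y1 := by
    have : -EE k 0 ≤ -EE k y1 := hmax ⟨le_rfl, h0⟩
    rw [EE_zero] at this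
    linarith
  refine ⟨y1, hy1.1, hy1.2, h1, neg_le_exp hy1.1 hy1.2, fun y hy hy' => ?_⟩
  rw [abs_le]
  constructor
  · have h3 : -EE k y ≤ -EE k y1 := by
      by_cases h : 0 ≤ y ∧ y ≤ 2 / ((k : ℝ) + 2)
      · exact hmax h
      · refine (neg_le_one hy hy' ?_).trans h1
        by_contra hc
        push Not at hc
        exact h ⟨hc.1.le, hc.2.le⟩
    linarith
  · exact (EE_le_one hk hy hy').trans h1

/-! ### The norm -/

/-- the maximum norm on `[-1, 1]` -/
noncomputable def nrm (P : ℝ[X]) : ℝ := sSup ((fun x : ℝ => |P.eval x|) '' Set.Icc (-1) 1)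

theorem nrm_spec (P : ℝ[X]) : (∀ x : ℝ, -1 ≤ x → x ≤ 1 → |P.eval x| ≤ nrm P) ∧
    ∃ x : ℝ, -1 ≤ x ∧ x ≤ 1 ∧ |P.eval x| = nrm P := by
  have hne : (Set.Icc (-1 : ℝ) 1).Nonempty := ⟨0, by norm_num, by norm_num⟩
  obtain ⟨x, hx, hmax⟩ := isCompact_Icc.exists_isMaxOn hne (f := fun x : ℝ => |P.eval x|)
    (P.continuous.abs.continuousOn)
  have h : nrm P = |P.eval x| := by
    unfold nrm
    refine IsGreatest.csSup_eq ⟨⟨x, hx, rfl⟩, ?_⟩
    rintro _ ⟨y, hy, rfl⟩
    exact hmax hy
  exact ⟨fun y h1 h2 => by rw [h]; exact hmax ⟨h1, h2⟩, x, hx.1, hx.2, h.symm⟩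

theorem nrm_eq {P : ℝ[X]} {x A : ℝ} (h1 : -1 ≤ x) (h2 : x ≤ 1) (hx : |P.eval x| = A)
    (h : ∀ y : ℝ, -1 ≤ y → y ≤ 1 → |P.eval y| ≤ A) : nrm P = A := by
  obtain ⟨g1, z, z1, z2, z3⟩ := nrm_spec P
  refine le_antisymm ?_ ?_
  · rw [← z3]; exact h z z1 z2
  · rw [← hx]; exact g1 x h1 h2

theorem nrm_nonneg (P : ℝ[X]) : 0 ≤ nrm P := by
  obtain ⟨_, z, _, _, z3⟩ := nrm_spec P
  rw [← z3]; exact abs_nonneg _

/-! ### Normal form at a point -/

/-- reciprocal distances to the zeros on the left -/
noncomputable def lefts (x : ℝ) (s : Multiset ℝ) : Multiset ℝ := (s.filter fun r => r < x).map fun r => 1 / (x - r)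

/-- reciprocal distances to the zeros on the right -/
noncomputable def rights (x : ℝ) (s : Multiset ℝ) : Multiset ℝ := (s.filter fun r => x < r).map fun r => 1 / (r - x)

/-- the monic polynomial with the zeros `s` -/
noncomputable def mk (s : Multiset ℝ) : ℝ[X] := (s.map fun r => X - C r).prod

theorem mk_cons (r : ℝ) (s : Multiset ℝ) : mk (r ::ₘ s) = (X - C r) * mk s := by
  unfold mk; rw [Multiset.map_cons, Multiset.prod_cons]

theorem normal_form (x : ℝ) (s : Multiset ℝ) (hx : x ∉ s) :
    (mk s).comp (X + C x) = C ((mk s).eval x) * (pp (lefts x s) * mm (rights x s)) := by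
  induction s using Multiset.induction_on with
  | empty => simp [mk, lefts, rights, pp, mm]
  | cons r s ih =>
    have hxr : x ≠ r := fun h => hx (by rw [h]; exact Multiset.mem_cons_self _ _)
    have hxs : x ∉ s := fun h => hx (Multiset.mem_cons_of_mem h)
    rw [mk_cons, mul_comp, ih hxs, eval_mul, sub_comp, X_comp, C_comp, eval_sub, eval_X, eval_C, C_mul]
    rcases lt_or_gt_of_ne hxr with h | h
    · have e1 : lefts x (r ::ₘ s) = lefts x s := by
        unfold lefts; rw [Multiset.filter_cons_of_neg _ (by linarith)]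
      have e2 : rights x (r ::ₘ s) = (1 / (r - x)) ::ₘ rights x s := by
        unfold rights; rw [Multiset.filter_cons_of_pos (p := fun r => x < r) _ h, Multiset.map_cons]
      rw [e1, e2, mm_cons]
      have e3 : (X + C x - C r : ℝ[X]) = C (x - r) * (1 - C (1 / (r - x)) * X) := by
        have : (C (x - r) * C (1 / (r - x)) : ℝ[X]) = -1 := by
          rw [← C_mul, ← C_1, ← C_neg]
          congr 1
          have : r - x ≠ 0 := by intro h0; apply hxr; linarith
          field_simp
          ring
        rw [mul_sub, mul_one, ← mul_assoc, this, C_sub]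
        ring
      rw [e3]; ring
    · have e1 : rights x (r ::ₘ s) = rights x s := by
        unfold rights; rw [Multiset.filter_cons_of_neg _ (by linarith)]
      have e2 : lefts x (r ::ₘ s) = (1 / (x - r)) ::ₘ lefts x s := by
        unfold lefts; rw [Multiset.filter_cons_of_pos (p := fun r => r < x) _ h, Multiset.map_cons]
      rw [e1, e2, pp_cons]
      have e3 : (X + C x - C r : ℝ[X]) = C (x - r) * (1 + C (1 / (x - r)) * X) := by
        have : (C (x - r) * C (1 / (x - r)) : ℝ[X]) = 1 := by
          rw [← C_mul, ← C_1]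
          congr 1
          have : x - r ≠ 0 := by intro h0; apply hxr; linarith
          field_simp
        rw [mul_add, mul_one, ← mul_assoc, this, C_sub]
        ring
      rw [e3]; ring

theorem D2_comp (t x : ℝ) (P : ℝ[X]) : D2 t (P.comp (X + C x)) = (derivative (derivative P)).eval (x + t) := by
  unfold D2
  rw [derivative_comp, derivative_add, derivative_X, derivative_C, add_zero, one_mul, derivative_comp,
    derivative_add, derivative_X, derivative_C, add_zero, one_mul, eval_comp, eval_add, eval_X, eval_C, add_comm]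

theorem D1_comp (x : ℝ) (P : ℝ[X]) : (derivative (P.comp (X + C x))).eval 0 = (derivative P).eval x := by
  rw [derivative_comp, derivative_add, derivative_X, derivative_C, add_zero, one_mul, eval_comp, eval_add,
    eval_X, eval_C, zero_add]

theorem pp_at_zero (u : Multiset ℝ) : (pp u).eval 0 = 1 ∧ (derivative (pp u)).eval 0 = u.sum := by
  induction u using Multiset.induction_on with
  | empty => simp [pp_zero]
  | cons a u ih =>
    rw [pp_cons, Multiset.sum_cons]
    simp only [derivative_mul, derivative_add, derivative_one, derivative_C, derivative_X, zero_mul, zero_add,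
      mul_one, eval_mul, eval_add, eval_one, eval_C, eval_X, ih.1, ih.2, mul_zero, add_zero, one_mul, and_self]

theorem mm_at_zero (u : Multiset ℝ) : (mm u).eval 0 = 1 ∧ (derivative (mm u)).eval 0 = -u.sum := by
  induction u using Multiset.induction_on with
  | empty => simp [mm_zero]
  | cons a u ih =>
    rw [mm_cons, Multiset.sum_cons]
    simp only [derivative_mul, derivative_sub, derivative_one, derivative_C, derivative_X, zero_mul, zero_add,
      mul_one, eval_mul, eval_add, eval_sub, eval_one, eval_C, eval_X, ih.1, ih.2, mul_zero, add_zero, one_mul,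
      zero_sub, eval_neg, sub_zero, true_and]
    ring

/-- at least `n(n-1)/4` if all zeros are on the left at distance at most `2` -/
theorem all_left (u : Multiset ℝ) (hu : ∀ a ∈ u, 1 / 2 ≤ a) :
    (Multiset.card u : ℝ) / 2 ≤ u.sum ∧
    (Multiset.card u : ℝ) * ((Multiset.card u : ℝ) - 1) / 4 ≤ D2 0 (pp u) := by
  induction u using Multiset.induction_on with
  | empty => simp [pp_zero, D2]
  | cons a u ih =>
    obtain ⟨h1, h2⟩ := ih fun b hb => hu b (Multiset.mem_cons_of_mem hb)
    have ha := hu a (Multiset.mem_cons_self a u)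
    obtain ⟨p0, p1⟩ := pp_at_zero u
    rw [Multiset.sum_cons, Multiset.card_cons, pp_cons]
    push_cast
    refine ⟨by linarith, ?_⟩
    have e : D2 0 ((1 + C a * X) * pp u) = 2 * a * u.sum + D2 0 (pp u) := by
      unfold D2
      simp only [derivative_mul, derivative_add, derivative_one, derivative_C, derivative_X, zero_mul, zero_add,
        mul_one, eval_mul, eval_add, eval_one, eval_C, eval_X, p1, mul_zero, add_zero, one_mul]
      ring
    rw [e]
    have hc : (0 : ℝ) ≤ Multiset.card u := Nat.cast_nonneg _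
    nlinarith [mul_nonneg (sub_nonneg.2 ha) (show (0 : ℝ) ≤ u.sum by linarith)]

/-- the sum of the reciprocal distances -/
theorem sum_recip {e x : ℝ} (s : Multiset ℝ) (hs : ∀ r ∈ s, e ≤ r ∧ r < x) :
    (Multiset.card s : ℝ) ≤ (x - e) * (s.map fun r => 1 / (x - r)).sum ∧
    ((x - e) * (s.map fun r => 1 / (x - r)).sum ≤ (Multiset.card s : ℝ) → ∀ r ∈ s, r = e) := by
  induction s using Multiset.induction_on with
  | empty => simp
  | cons a s ih =>
    obtain ⟨h1, h2⟩ := ih fun b hb => hs b (Multiset.mem_cons_of_mem hb)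
    obtain ⟨ha, hax⟩ := hs a (Multiset.mem_cons_self a s)
    rw [Multiset.card_cons, Multiset.map_cons, Multiset.sum_cons]
    push_cast
    have h3 : 1 ≤ (x - e) * (1 / (x - a)) := by
      rw [mul_one_div, one_le_div (by linarith)]; linarith
    refine ⟨by linarith, fun h r hr => ?_⟩
    have h4 : (x - e) * (1 / (x - a)) ≤ 1 := by linarith
    rw [mul_one_div, div_le_one (by linarith)] at h4
    rcases Multiset.mem_cons.1 hr with h5 | h5
    · rw [h5]; linarith
    · exact h2 (by linarith) r h5

end Pool.Agent.X206.TU
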