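import Pool.Agent.X206.TU.D

set_option autoImplicit false

/-!
The main inequality.
-/

namespace Pool.Agent.X206.TU

open Polynomial

/-- `n^3/(n^2-1)` for `n = 2k+5` -/
noncomputable def KK (k : ℕ) : ℝ := (2 * (k : ℝ) + 5) ^ 3 / (4 * (k + 2) * (k + 3))

theorem D2_scaled (k : ℕ) (S t : ℝ) :
    D2 t ((1 + C (S / ((k + 3 : ℕ) : ℝ)) * X) ^ (k + 3) * (1 - C (S / ((k + 2 : ℕ) : ℝ)) * X) ^ (k + 2)) =
      (2 * S / (2 * k + 5)) ^ 2 * KK k * EE k (2 * S * t) := by
  have hk : (0 : ℝ) ≤ k := Nat.cast_nonneg k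
  have h := D2_formula (a := S / ((k + 3 : ℕ) : ℝ)) (b := S / ((k + 2 : ℕ) : ℝ)) (S := S) (t := t) (p := k + 1)
    (r := k) (by push_cast; field_simp; ring) (by push_cast; field_simp)
  rw [h]
  unfold KK EE
  push_cast
  have e1 : 1 - 2 * S * t / (2 * k + 4) = 1 - S / ((k : ℝ) + 2) * t := by field_simp; ring
  have e2 : 1 + 2 * S * t / (2 * k + 6) = 1 + S / ((k : ℝ) + 3) * t := by field_simp; ring
  have e3 : (2 * S * t) ^ 2 / (2 * (k : ℝ) + 6) - 1 =
      (S * (S / ((k : ℝ) + 3) + S / (k + 2)) - S / ((k : ℝ) + 3) * (S / (k + 2))) * t ^ 2 - 1 := by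
    field_simp; ring
  have e4 : (2 * S / (2 * (k : ℝ) + 5)) ^ 2 * ((2 * k + 5) ^ 3 / (4 * (k + 2) * (k + 3))) =
      S * (S / ((k : ℝ) + 3) + S / (k + 2)) := by
    field_simp; ring
  rw [e1, e2, e3, e4]
  ring

theorem KK_pos (k : ℕ) : 0 < KK k := by unfold KK; positivity

/-- the candidate value is smaller than the other bounds -/
theorem KW_lt {k : ℕ} {W : ℝ} (hW : W ≤ Real.exp (2 / (((k : ℝ) + 2) ^ 2 * (k + 3)))) (hW0 : 0 ≤ W) :
    KK k * W < (2 * (k : ℝ) + 5) ^ 3 / (4 * (k + 1) * (k + 4)) := by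
  have hk : (0 : ℝ) ≤ k := Nat.cast_nonneg k
  set x := 2 / (((k : ℝ) + 2) ^ 2 * (k + 3)) with hx
  have hx0 : 0 < x := by positivity
  have hxe : x * (((k : ℝ) + 2) ^ 2 * (k + 3)) = 2 := by rw [hx]; field_simp
  have h1 : W * (1 - x) ≤ 1 := by
    have h2 := Real.add_one_le_exp (-x)
    have h3 : 0 ≤ Real.exp (-x) := (Real.exp_pos _).le
    have h4 : Real.exp x * Real.exp (-x) = 1 := by rw [← Real.exp_add]; simp
    calc W * (1 - x) ≤ W * Real.exp (-x) := mul_le_mul_of_nonneg_left (by linarith) hW0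
      _ ≤ Real.exp x * Real.exp (-x) := mul_le_mul_of_nonneg_right hW h3
      _ = 1 := h4
  have h5 : (0 : ℝ) < (k + 1) * (k + 4) := by positivity
  have h6 : ((k : ℝ) + 1) * (k + 4) < (k + 2) * (k + 3) * (1 - x) := by
    have h7 : (k + 2) * (k + 3) * x * ((k : ℝ) + 2) = 2 := by
      calc (k + 2) * (k + 3) * x * ((k : ℝ) + 2) = x * (((k : ℝ) + 2) ^ 2 * (k + 3)) := by ring
        _ = 2 := hxe
    have h8 : (k + 2) * (k + 3) * x ≤ 1 := by
      have : 0 ≤ (k + 2) * (k + 3) * x * (k : ℝ) := by positivity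
      nlinarith
    nlinarith
  have hx1 : 0 < 1 - x := by
    by_contra hc
    push Not at hc
    nlinarith [mul_nonneg (show (0 : ℝ) ≤ (k + 2) * (k + 3) by positivity) (neg_nonneg.2 hc)]
  unfold KK
  rw [div_mul_eq_mul_div, div_lt_div_iff₀ (by positivity) (by positivity)]
  have hW1 : W * ((k + 1) * (k + 4)) < (k + 2) * (k + 3) := by
    rcases hW0.eq_or_lt with h | h
    · rw [← h, zero_mul]; positivity
    · calc W * ((k + 1) * (k + 4)) < W * ((k + 2) * (k + 3) * (1 - x)) := mul_lt_mul_of_pos_left h6 h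
        _ = (W * (1 - x)) * ((k + 2) * (k + 3)) := by ring
        _ ≤ 1 * ((k + 2) * (k + 3)) := mul_le_mul_of_nonneg_right h1 (by positivity)
        _ = _ := one_mul _
  have hn : (0 : ℝ) < (2 * (k : ℝ) + 5) ^ 3 := by positivity
  have := mul_lt_mul_of_pos_left hW1 hn
  nlinarith

theorem bound_le {k : ℕ} (hk : 1 ≤ k) : (2 * (k : ℝ) + 5) ^ 3 / (4 * (k + 1) * (k + 4)) ≤
    (2 * (k : ℝ) + 5) * ((2 * k + 5) - 1) / 4 := by
  have hk1 : (1 : ℝ) ≤ k := by exact_mod_cast hk
  rw [div_le_div_iff₀ (by positivity) (by norm_num)]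
  have h1 : (2 * (k : ℝ) + 5) ^ 2 ≤ (2 * k + 4) * ((k + 1) * (k + 4)) := by nlinarith [sq_nonneg ((k : ℝ) - 1)]
  have := mul_le_mul_of_nonneg_left h1 (show (0 : ℝ) ≤ 4 * (2 * k + 5) by positivity)
  nlinarith

theorem sum_recip_right {x : ℝ} (s : Multiset ℝ) (hs : ∀ r ∈ s, x < r ∧ r ≤ 1) :
    (Multiset.card s : ℝ) ≤ (1 - x) * (s.map fun r => 1 / (r - x)).sum ∧
    ((1 - x) * (s.map fun r => 1 / (r - x)).sum ≤ (Multiset.card s : ℝ) → ∀ r ∈ s, r = 1) := by
  have h := sum_recip (e := -1) (x := -x) (s.map fun r => -r) (fun r hr => by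
    obtain ⟨r', hr', rfl⟩ := Multiset.mem_map.1 hr
    obtain ⟨h1, h2⟩ := hs r' hr'
    constructor <;> linarith)
  rw [Multiset.card_map, Multiset.map_map] at h
  have e : ((fun r => 1 / (-x - r)) ∘ fun r : ℝ => -r) = fun r => 1 / (r - x) := by
    funext r; simp only [Function.comp]; congr 1; ring
  rw [e, show -x - -1 = 1 - x by ring] at h
  refine ⟨h.1, fun h2 r hr => ?_⟩
  have := h.2 h2 (-r) (Multiset.mem_map_of_mem _ hr)
  linarith

theorem mk_monic (s : Multiset ℝ) : (mk s).Monic := by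
  unfold mk
  exact monic_multiset_prod_of_monic _ _ fun r _ => monic_X_sub_C r

theorem core {k : ℕ} (hk : 1 ≤ k) {a : ℝ} (ha : a ≠ 0) {s : Multiset ℝ} (hcard : Multiset.card s = 2 * k + 5)
    (hs : ∀ r ∈ s, -1 ≤ r ∧ r ≤ 1) {x : ℝ} (hx1 : -1 ≤ x) (hx2 : x ≤ 1)
    (hmax : |(C a * mk s).eval x| = nrm (C a * mk s)) (hj : k + 3 ≤ Multiset.card (s.filter fun r => r < x))
    {y1 : ℝ} (hy0 : 0 ≤ y1) (hy1 : y1 ≤ 2 / ((k : ℝ) + 2)) (hW1 : 1 ≤ -EE k y1)
    (hW2 : -EE k y1 ≤ Real.exp (2 / (((k : ℝ) + 2) ^ 2 * (k + 3)))) :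
    KK k * (-EE k y1) * nrm (C a * mk s) ≤ nrm (derivative (derivative (C a * mk s))) ∧
    (nrm (derivative (derivative (C a * mk s))) ≤ KK k * (-EE k y1) * nrm (C a * mk s) →
      s = Multiset.replicate (k + 3) (-1) + Multiset.replicate (k + 2) 1) := by
  set P := C a * mk s with hP
  set W := -EE k y1 with hW
  have hkr : (1 : ℝ) ≤ k := by exact_mod_cast hk
  have hP0 : P ≠ 0 := mul_ne_zero (C_ne_zero.2 ha) (mk_monic s).ne_zero
  obtain ⟨n1, _⟩ := nrm_spec P
  obtain ⟨n2, _⟩ := nrm_spec (derivative (derivative P))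
  have hN : 0 < nrm P := by
    rcases (nrm_nonneg P).eq_or_lt with h | h
    · exfalso
      refine hP0 (Polynomial.eq_zero_of_infinite_isRoot P ((Set.Icc_infinite (show (-1 : ℝ) < 1 by norm_num)).mono ?_))
      intro y hy
      have := n1 y hy.1 hy.2
      rw [← h] at this
      exact abs_nonpos_iff.1 this
    · exact h
  have hPx : P.eval x ≠ 0 := by
    intro h; rw [h, abs_zero] at hmax; exact hN.ne hmax
  have hxs : x ∉ s := by
    intro h
    apply hPx
    rw [hP, eval_mul]
    have : (mk s).eval x = 0 := by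
      obtain ⟨s', rfl⟩ := Multiset.exists_cons_of_mem h
      rw [mk_cons]; simp
    rw [this, mul_zero]
  set u := lefts x s with hu
  set v := rights x s with hv
  have hnf : P.comp (X + C x) = C (P.eval x) * (pp u * mm v) := by
    rw [hP, mul_comp, C_comp, normal_form x s hxs, eval_mul, eval_C, C_mul]; ring
  have hD2 : ∀ t : ℝ, (derivative (derivative P)).eval (x + t) = P.eval x * D2 t (pp u * mm v) := by
    intro t; rw [← D2_comp, hnf, D2_C_mul]
  have hkey : ∀ (t b : ℝ), -1 ≤ x + t → x + t ≤ 1 → b ≤ |D2 t (pp u * mm v)| →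
      b * nrm P ≤ nrm (derivative (derivative P)) := by
    intro t b h1 h2 h3
    have := n2 (x + t) h1 h2
    rw [hD2, abs_mul, hmax] at this
    nlinarith
  have hfilt : s = (s.filter fun r => r < x) + s.filter fun r => x < r := by
    conv_lhs => rw [← Multiset.filter_add_not (fun r => r < x) s]
    congr 1
    refine Multiset.filter_congr fun r hr => ?_
    constructor
    · intro h
      exact lt_of_le_of_ne (not_lt.1 h) fun h' => hxs (h' ▸ hr)
    · intro h; exact not_lt.2 h.le
  set L := s.filter fun r => r < x with hL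
  set R := s.filter fun r => x < r with hR
  have hLm : ∀ r ∈ L, -1 ≤ r ∧ r < x := fun r hr =>
    ⟨(hs r (Multiset.mem_of_mem_filter hr)).1, (Multiset.mem_filter.1 hr).2⟩
  have hRm : ∀ r ∈ R, x < r ∧ r ≤ 1 := fun r hr =>
    ⟨(Multiset.mem_filter.1 hr).2, (hs r (Multiset.mem_of_mem_filter hr)).2⟩
  have hjl : Multiset.card L + Multiset.card R = 2 * k + 5 := by
    rw [← hcard]; conv_rhs => rw [hfilt]
    rw [Multiset.card_add]
  have huc : Multiset.card u = Multiset.card L := by rw [hu]; unfold lefts; rw [Multiset.card_map]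
  have hvc : Multiset.card v = Multiset.card R := by rw [hv]; unfold rights; rw [Multiset.card_map]
  have hu0 : ∀ c ∈ u, 0 ≤ c := by
    intro c hc
    rw [hu] at hc
    obtain ⟨r, hr, rfl⟩ := Multiset.mem_map.1 hc
    have := (hLm r hr).2
    exact (one_div_pos.2 (by linarith)).le
  have hv0 : ∀ c ∈ v, 0 ≤ c := by
    intro c hc
    rw [hv] at hc
    obtain ⟨r, hr, rfl⟩ := Multiset.mem_map.1 hc
    have := (hRm r hr).1
    exact (one_div_pos.2 (by linarith)).le
  have hKW := KW_lt hW2 (by linarith : (0 : ℝ) ≤ W)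
  -- strict cases
  have hstrict : ∀ b : ℝ, (2 * (k : ℝ) + 5) ^ 3 / (4 * (k + 1) * (k + 4)) ≤ b → b ≤ |D2 0 (pp u * mm v)| →
      KK k * W * nrm P < nrm (derivative (derivative P)) := by
    intro b h1 h2
    refine lt_of_lt_of_le (mul_lt_mul_of_pos_right (hKW.trans_le h1) hN) (hkey 0 b ?_ ?_ h2)
    · simpa using hx1
    · simpa using hx2
  by_cases hR0 : R = 0
  · have hv00 : v = 0 := by rw [hv]; unfold rights; rw [← hR, hR0, Multiset.map_zero]
    have hcu : Multiset.card u = 2 * k + 5 := by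
      rw [huc, ← hjl, hR0, Multiset.card_zero, add_zero]
    obtain ⟨_, h2⟩ := all_left u (fun c hc => by
      rw [hu] at hc
      obtain ⟨r, hr, rfl⟩ := Multiset.mem_map.1 hc
      obtain ⟨h1, h2⟩ := hLm r hr
      exact one_div_le_one_div_of_le (by linarith) (by linarith))
    rw [hcu] at h2
    push_cast at h2
    have h3 := hstrict _ (bound_le hk) (by
      rw [hv00, mm_zero, mul_one]
      exact h2.trans (le_abs_self _))
    exact ⟨h3.le, fun h => absurd h (not_le.2 h3)⟩
  · obtain ⟨rR, hrR⟩ := Multiset.exists_mem_of_ne_zero hR0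
    have hL0 : L ≠ 0 := by intro h; rw [h, Multiset.card_zero] at hj; omega
    obtain ⟨rL, hrL⟩ := Multiset.exists_mem_of_ne_zero hL0
    have hxlt : x < 1 := (hRm rR hrR).1.trans_le (hRm rR hrR).2
    have hxgt : -1 < x := (hLm rL hrL).1.trans_lt (hLm rL hrL).2
    -- critical point
    have hcrit : (derivative P).eval x = 0 := by
      rcases lt_or_gt_of_ne hPx with h | h
      · have hmin : IsLocalMin (fun y => P.eval y) x := by
          filter_upwards [Ioo_mem_nhds hxgt hxlt] with y hy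
          have h1 := n1 y hy.1.le hy.2.le
          rw [← hmax, abs_of_neg h] at h1
          have := neg_abs_le (P.eval y)
          linarith
        exact hmin.hasDerivAt_eq_zero (P.hasDerivAt x)
      · have hmx : IsLocalMax (fun y => P.eval y) x := by
          filter_upwards [Ioo_mem_nhds hxgt hxlt] with y hy
          have h1 := n1 y hy.1.le hy.2.le
          rw [← hmax, abs_of_pos h] at h1
          have := le_abs_self (P.eval y)
          linarith
        exact hmx.hasDerivAt_eq_zero (P.hasDerivAt x)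
    have huv : u.sum = v.sum := by
      have hd : (derivative (pp u * mm v)).eval 0 = u.sum - v.sum := by
        rw [derivative_mul, eval_add, eval_mul, eval_mul, (pp_at_zero u).1, (pp_at_zero u).2,
          (mm_at_zero v).1, (mm_at_zero v).2]
        ring
      rw [← D1_comp, hnf, derivative_C_mul, eval_C_mul, hd] at hcrit
      rcases mul_eq_zero.1 hcrit with h | h
      · exact absurd h hPx
      · linarith
    set S := u.sum with hS
    obtain ⟨sL, sL'⟩ := sum_recip L hLm
    obtain ⟨sR, sR'⟩ := sum_recip_right R hRm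
    have eL : (L.map fun r => 1 / (x - r)).sum = S := by rw [hS, hu]; rfl
    have eR : (R.map fun r => 1 / (r - x)).sum = S := by rw [huv, hv]; rfl
    rw [eL] at sL sL'
    rw [eR] at sR sR'
    have hjl' : (Multiset.card L : ℝ) + Multiset.card R = 2 * k + 5 := by exact_mod_cast hjl
    have hSn : 2 * (k : ℝ) + 5 ≤ 2 * S := by nlinarith
    have hS0 : 0 < S := by linarith
    rcases Nat.lt_or_ge (k + 3) (Multiset.card L) with hjj | hjj
    · -- at least k+4 zeros on the left
      have hR1 : 1 ≤ Multiset.card R := Multiset.card_pos.2 hR0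
      obtain ⟨p, hp⟩ : ∃ p, Multiset.card L = p + 1 := ⟨Multiset.card L - 1, by omega⟩
      obtain ⟨r, hr⟩ : ∃ r, Multiset.card R = r + 1 := ⟨Multiset.card R - 1, by omega⟩
      have h1 := smooth (t := 0) le_rfl (S := S) (u := u) (v := v) (j := p + 1) (l := r + 1) (by omega) (by omega)
        hu0 hv0 (by rw [huc, hp]) (by rw [hvc, hr]) rfl huv.symm (by norm_num)
      rw [D2_zero (S := S) (by push_cast; field_simp) (by push_cast; field_simp)] at h1
      push_cast at h1
      have hp3 : (k : ℝ) + 3 ≤ p := by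
        have : k + 3 ≤ p := by omega
        exact_mod_cast this
      have hpr : (p : ℝ) + r = 2 * k + 3 := by
        have : p + r = 2 * k + 3 := by omega
        exact_mod_cast this
      have hr0 : (0 : ℝ) ≤ r := Nat.cast_nonneg r
      have h3 := hstrict (S * (S / ((p : ℝ) + 1) + S / (r + 1))) (by
        have e : S * (S / ((p : ℝ) + 1) + S / (r + 1)) = S ^ 2 * (2 * k + 5) / ((p + 1) * (r + 1)) := by
          rw [show 2 * (k : ℝ) + 5 = (p + 1) + (r + 1) by linarith]
          field_simp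
          ring
        rw [e, div_le_div_iff₀ (by positivity) (by positivity)]
        have h4 : ((p : ℝ) + 1) * (r + 1) ≤ (k + 1) * (k + 4) := by
          have : (r : ℝ) = 2 * k + 3 - p := by linarith
          rw [this]
          nlinarith
        have h5 : (2 * (k : ℝ) + 5) ^ 2 ≤ 4 * S ^ 2 := by nlinarith
        calc (2 * (k : ℝ) + 5) ^ 3 * ((p + 1) * (r + 1)) =
              (2 * k + 5) * ((2 * (k : ℝ) + 5) ^ 2 * ((p + 1) * (r + 1))) := by ring
          _ ≤ (2 * k + 5) * (4 * S ^ 2 * ((k + 1) * (k + 4))) := by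
              refine mul_le_mul_of_nonneg_left ?_ (by positivity)
              exact mul_le_mul h5 h4 (by positivity) (by positivity)
          _ = _ := by ring) (by
        rw [le_abs]; right; linarith)
      exact ⟨h3.le, fun h => absurd h (not_le.2 h3)⟩
    · have hcL : Multiset.card L = k + 3 := by omega
      have hcR : Multiset.card R = k + 2 := by omega
      set t := y1 / (2 * S) with ht
      have ht0 : 0 ≤ t := by positivity
      have htS : 2 * S * t = y1 := by rw [ht]; field_simp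
      have hy1' : y1 ≤ 2 / 3 := hy1.trans (by
        rw [div_le_div_iff₀ (by positivity) (by norm_num)]; linarith)
      have h1 := smooth (t := t) ht0 (S := S) (u := u) (v := v) (j := k + 3) (l := k + 2) (by omega) (by omega)
        hu0 hv0 (by rw [huc, hcL]) (by rw [hvc, hcR]) rfl huv.symm (by nlinarith)
      rw [D2_scaled, htS] at h1
      have hxt : x + t ≤ 1 := by
        have h2 : 1 / (rR - x) ≤ S := by
          rw [← eR]
          exact Multiset.single_le_sum (fun c hc => by
            obtain ⟨r, hr, rfl⟩ := Multiset.mem_map.1 hc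
            have := (hRm r hr).1
            exact (one_div_pos.2 (by linarith)).le) _ (Multiset.mem_map_of_mem _ hrR)
        obtain ⟨h3, h4⟩ := hRm rR hrR
        have h5 : 0 < rR - x := by linarith
        rw [div_le_iff₀ h5] at h2
        have h6 : t ≤ rR - x := by
          rw [ht, div_le_iff₀ (by positivity)]
          nlinarith
        linarith
      have hb : (2 * S / (2 * k + 5)) ^ 2 * KK k * W ≤ |D2 t (pp u * mm v)| := by
        rw [le_abs]; right
        rw [hW]
        linarith
      have h7 := hkey t _ (by linarith) hxt hb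
      have h8 : 1 ≤ 2 * S / (2 * k + 5) := by rw [one_le_div (by positivity)]; exact hSn
      have h9 : 1 ≤ (2 * S / (2 * k + 5)) ^ 2 := one_le_pow₀ h8
      have h10 : 0 < KK k * W * nrm P := mul_pos (mul_pos (KK_pos k) (by linarith)) hN
      have h11 : (2 * S / (2 * k + 5)) ^ 2 * KK k * W * nrm P = (2 * S / (2 * k + 5)) ^ 2 * (KK k * W * nrm P) := by
        ring
      rw [h11] at h7
      refine ⟨le_trans (by nlinarith) h7, fun hle => ?_⟩
      have h12 : (2 * S / (2 * k + 5)) ^ 2 ≤ 1 := by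
        by_contra hc
        push Not at hc
        nlinarith
      have h13 : 2 * S / (2 * k + 5) ≤ 1 := by nlinarith
      rw [div_le_one (by positivity)] at h13
      rw [hcL] at sL sL'
      rw [hcR] at sR sR'
      push_cast at sL sL' sR sR'
      have hLe := sL' (by nlinarith)
      have hRe := sR' (by nlinarith)
      rw [hfilt]
      congr 1
      · rw [Multiset.eq_replicate]; exact ⟨hcL, hLe⟩
      · rw [Multiset.eq_replicate]; exact ⟨hcR, hRe⟩

end Pool.Agent.X206.TU
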