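import Pool.Agent.X206.TU.E

set_option autoImplicit false

/-!
Reflection, the candidate, and the conclusion.
-/

namespace Pool.Agent.X206.TU

open Polynomial

theorem mk_neg (s : Multiset ℝ) : (mk s).comp (-X) = C ((-1) ^ Multiset.card s) * mk (s.map fun r => -r) := by
  induction s using Multiset.induction_on with
  | empty => simp [mk]
  | cons r s ih =>
    rw [mk_cons, mul_comp, ih, Multiset.map_cons, mk_cons, Multiset.card_cons, pow_succ, C_mul, sub_comp, X_comp,
      C_comp, C_neg, C_neg, C_1]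
    ring

theorem dd_neg (P : ℝ[X]) : derivative (derivative (P.comp (-X))) = (derivative (derivative P)).comp (-X) := by
  rw [derivative_comp, derivative_mul, derivative_comp]
  simp

theorem nrm_neg (P : ℝ[X]) : nrm (P.comp (-X)) = nrm P := by
  obtain ⟨h1, z, z1, z2, z3⟩ := nrm_spec P
  refine nrm_eq (x := -z) (by linarith) (by linarith) ?_ fun y hy hy' => ?_
  · rw [eval_comp, eval_neg, eval_X, neg_neg]; exact z3
  · rw [eval_comp, eval_neg, eval_X]; exact h1 (-y) (by linarith) (by linarith)

theorem main_ineq {k : ℕ} (hk : 1 ≤ k) {a : ℝ} (ha : a ≠ 0) {s : Multiset ℝ} (hcard : Multiset.card s = 2 * k + 5)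
    (hs : ∀ r ∈ s, -1 ≤ r ∧ r ≤ 1) {y1 : ℝ} (hy0 : 0 ≤ y1) (hy1 : y1 ≤ 2 / ((k : ℝ) + 2)) (hW1 : 1 ≤ -EE k y1)
    (hW2 : -EE k y1 ≤ Real.exp (2 / (((k : ℝ) + 2) ^ 2 * (k + 3)))) :
    KK k * (-EE k y1) * nrm (C a * mk s) ≤ nrm (derivative (derivative (C a * mk s))) ∧
    (nrm (derivative (derivative (C a * mk s))) ≤ KK k * (-EE k y1) * nrm (C a * mk s) →
      s = Multiset.replicate (k + 3) (-1) + Multiset.replicate (k + 2) 1 ∨
      s = Multiset.replicate (k + 3) 1 + Multiset.replicate (k + 2) (-1)) := by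
  obtain ⟨_, x, hx1, hx2, hx3⟩ := nrm_spec (C a * mk s)
  by_cases hj : k + 3 ≤ Multiset.card (s.filter fun r => r < x)
  · have h := core hk ha hcard hs hx1 hx2 hx3 hj hy0 hy1 hW1 hW2
    exact ⟨h.1, fun h2 => Or.inl (h.2 h2)⟩
  · set s' := s.map fun r => -r with hs'
    set a' := a * (-1) ^ Multiset.card s with ha'
    have ha'0 : a' ≠ 0 := mul_ne_zero ha (pow_ne_zero _ (by norm_num))
    have hP' : C a' * mk s' = (C a * mk s).comp (-X) := by
      rw [mul_comp, C_comp, mk_neg, ha', C_mul]; ring
    have hxs : x ∉ s := by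
      intro h
      have h0 : (C a * mk s).eval x = 0 := by
        obtain ⟨s'', rfl⟩ := Multiset.exists_cons_of_mem h
        rw [mk_cons]; simp
      rw [h0, abs_zero] at hx3
      have hP0 : C a * mk s ≠ 0 := mul_ne_zero (C_ne_zero.2 ha) (mk_monic s).ne_zero
      refine hP0 (Polynomial.eq_zero_of_infinite_isRoot _
        ((Set.Icc_infinite (show (-1 : ℝ) < 1 by norm_num)).mono ?_))
      intro y hy
      have := (nrm_spec (C a * mk s)).1 y hy.1 hy.2
      rw [← hx3] at this
      exact abs_nonpos_iff.1 this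
    have hfilt : Multiset.card (s.filter fun r => r < x) + Multiset.card (s.filter fun r => x < r) = 2 * k + 5 := by
      rw [← hcard, ← Multiset.card_add]
      congr 1
      conv_rhs => rw [← Multiset.filter_add_not (fun r => r < x) s]
      congr 1
      refine Multiset.filter_congr fun r hr => ?_
      constructor
      · intro h; exact not_lt.2 h.le
      · intro h
        exact lt_of_le_of_ne (not_lt.1 h) fun h' => hxs (h' ▸ hr)
    have hj' : k + 3 ≤ Multiset.card (s'.filter fun r => r < -x) := by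
      have : s'.filter (fun r => r < -x) = (s.filter fun r => x < r).map fun r => -r := by
        rw [hs', Multiset.filter_map]
        congr 1
        refine Multiset.filter_congr fun r _ => ?_
        simp only [Function.comp]
        exact neg_lt_neg_iff
      rw [this, Multiset.card_map]
      omega
    have h := core hk ha'0 (s := s') (by rw [hs', Multiset.card_map]; exact hcard) (fun r hr => by
      obtain ⟨r', hr', rfl⟩ := Multiset.mem_map.1 hr
      obtain ⟨h1, h2⟩ := hs r' hr'
      constructor <;> linarith) (x := -x) (by linarith) (by linarith) (by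
        rw [hP', nrm_neg, eval_comp, eval_neg, eval_X, neg_neg]; exact hx3) hj' hy0 hy1 hW1 hW2
    rw [hP', nrm_neg, dd_neg, nrm_neg] at h
    refine ⟨h.1, fun h2 => Or.inr ?_⟩
    have h3 := h.2 h2
    have h4 : s = s'.map fun r => -r := by
      rw [hs', Multiset.map_map]
      simp
    rw [h4, h3, Multiset.map_add, Multiset.map_replicate, Multiset.map_replicate, neg_neg]

/-- the zeros of the candidate -/
noncomputable def qs (k : ℕ) : Multiset ℝ := Multiset.replicate (k + 3) (-1) + Multiset.replicate (k + 2) 1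

theorem mk_qs (k : ℕ) : mk (qs k) = (X + 1) ^ (k + 3) * (X - 1) ^ (k + 2) := by
  unfold mk qs
  rw [Multiset.map_add, Multiset.prod_add, Multiset.map_replicate, Multiset.map_replicate,
    Multiset.prod_replicate, Multiset.prod_replicate]
  simp

theorem candidate {k : ℕ} {a : ℝ} (ha : a ≠ 0) {y1 : ℝ} (hy0 : 0 ≤ y1)
    (hy1 : y1 ≤ 2 / ((k : ℝ) + 2)) (hW1 : 1 ≤ -EE k y1)
    (hmax : ∀ y : ℝ, -(2 * (k : ℝ) + 6) ≤ y → y ≤ 2 * k + 4 → |EE k y| ≤ -EE k y1) :
    0 < nrm (C a * mk (qs k)) ∧
    nrm (derivative (derivative (C a * mk (qs k)))) = KK k * (-EE k y1) * nrm (C a * mk (qs k)) := by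
  have hk : (0 : ℝ) ≤ k := Nat.cast_nonneg k
  set n : ℝ := 2 * k + 5 with hn
  have hnpos : 0 < n := by positivity
  set x : ℝ := 1 / n with hx
  have hx0 : 0 < x := by positivity
  have hx1 : x < 1 := by rw [hx, div_lt_one hnpos, hn]; linarith
  have hxn : x * n = 1 := by rw [hx]; field_simp
  set P := C a * mk (qs k) with hP
  have hxs : x ∉ qs k := by
    unfold qs
    intro h
    rcases Multiset.mem_add.1 h with h | h
    · have := Multiset.eq_of_mem_replicate h; linarith
    · have := Multiset.eq_of_mem_replicate h; linarith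
  have el : lefts x (qs k) = Multiset.replicate (k + 3) (n / 2 / ((k + 3 : ℕ) : ℝ)) := by
    unfold lefts qs
    rw [Multiset.filter_add, Multiset.filter_eq_self.2 (fun r hr => by
      rw [Multiset.eq_of_mem_replicate hr]; linarith), Multiset.filter_eq_nil.2 (fun r hr => by
      rw [Multiset.eq_of_mem_replicate hr]; linarith), add_zero, Multiset.map_replicate]
    congr 1
    push_cast
    rw [div_div, div_eq_div_iff (by linarith) (by positivity)]
    linear_combination -hxn - hn
  have er : rights x (qs k) = Multiset.replicate (k + 2) (n / 2 / ((k + 2 : ℕ) : ℝ)) := by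
    unfold rights qs
    rw [Multiset.filter_add, Multiset.filter_eq_nil.2 (fun r hr => by
      rw [Multiset.eq_of_mem_replicate hr]; linarith), Multiset.filter_eq_self.2 (fun r hr => by
      rw [Multiset.eq_of_mem_replicate hr]; linarith), zero_add, Multiset.map_replicate]
    congr 1
    push_cast
    rw [hx, hn]
    have : 2 * (k : ℝ) + 5 - 1 ≠ 0 := by linarith
    field_simp
    ring
  have mmr : ∀ (l : ℕ) (c : ℝ), mm (Multiset.replicate l c) = (1 - C c * X) ^ l := by
    intro l c
    unfold mm; rw [Multiset.map_replicate, Multiset.prod_replicate]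
  have hnf : P.comp (X + C x) = C (P.eval x) * ((1 + C (n / 2 / ((k + 3 : ℕ) : ℝ)) * X) ^ (k + 3) *
      (1 - C (n / 2 / ((k + 2 : ℕ) : ℝ)) * X) ^ (k + 2)) := by
    rw [hP, mul_comp, C_comp, normal_form x _ hxs, eval_mul, eval_C, C_mul, el, er, pp_replicate, mmr]; ring
  have hP0 : P.eval x ≠ 0 := by
    rw [hP, mk_qs, eval_mul, eval_mul, eval_C, eval_pow, eval_pow, eval_add, eval_sub, eval_X, eval_one]
    refine mul_ne_zero ha (mul_ne_zero (pow_ne_zero _ ?_) (pow_ne_zero _ ?_))
    · linarith
    · intro h; linarith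
  have hnrm : nrm P = |P.eval x| := by
    refine nrm_eq (x := x) (by linarith) hx1.le rfl fun y hy hy' => ?_
    have e : P.eval y = P.eval x * ((1 + n / 2 / ((k + 3 : ℕ) : ℝ) * (y - x)) ^ (k + 3) *
        (1 - n / 2 / ((k + 2 : ℕ) : ℝ) * (y - x)) ^ (k + 2)) := by
      have h := congrArg (eval (y - x)) hnf
      rw [eval_comp, eval_add, eval_X, eval_C, sub_add_cancel] at h
      rw [h]
      simp only [eval_mul, eval_C, eval_pow, eval_add, eval_sub, eval_one, eval_X]
    rw [e, abs_mul]
    refine mul_le_of_le_one_right (abs_nonneg _) ?_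
    set A := 1 + n / 2 / ((k + 3 : ℕ) : ℝ) * (y - x) with hA
    set B := 1 - n / 2 / ((k + 2 : ℕ) : ℝ) * (y - x) with hB
    have eA : A = (k + 3) / (k + 3) * ((1 + y) * n / (2 * (k + 3))) := by
      rw [hA, hx, hn]; push_cast; field_simp; ring
    have eB : B = (1 - y) * n / (2 * (k + 2)) := by
      rw [hB, hx, hn]; push_cast; field_simp; ring
    have hA0 : 0 ≤ A := by
      rw [eA]
      have : 0 ≤ 1 + y := by linarith
      positivity
    have hB0 : 0 ≤ B := by
      rw [eB]
      have : 0 ≤ 1 - y := by linarith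
      positivity
    have hA1 : A ≤ Real.exp (n / 2 / ((k + 3 : ℕ) : ℝ) * (y - x)) := by
      have := Real.add_one_le_exp (n / 2 / ((k + 3 : ℕ) : ℝ) * (y - x))
      linarith
    have hB1 : B ≤ Real.exp (-(n / 2 / ((k + 2 : ℕ) : ℝ) * (y - x))) := by
      have := Real.add_one_le_exp (-(n / 2 / ((k + 2 : ℕ) : ℝ) * (y - x)))
      linarith
    rw [abs_of_nonneg (by positivity)]
    calc A ^ (k + 3) * B ^ (k + 2) ≤ Real.exp (n / 2 / ((k + 3 : ℕ) : ℝ) * (y - x)) ^ (k + 3) *
          Real.exp (-(n / 2 / ((k + 2 : ℕ) : ℝ) * (y - x))) ^ (k + 2) :=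
          mul_le_mul (pow_le_pow_left₀ hA0 hA1 _) (pow_le_pow_left₀ hB0 hB1 _) (by positivity) (by positivity)
      _ = 1 := by
          rw [← Real.exp_nat_mul, ← Real.exp_nat_mul, ← Real.exp_add, Real.exp_eq_one_iff]
          push_cast
          field_simp
          ring
  have hpos : 0 < nrm P := by rw [hnrm]; exact abs_pos.2 hP0
  refine ⟨hpos, ?_⟩
  have hdd : ∀ t : ℝ, (derivative (derivative P)).eval (x + t) = P.eval x * (KK k * EE k (n * t)) := by
    intro t
    rw [← D2_comp, hnf, D2_C_mul, D2_scaled]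
    have e1 : (2 * (n / 2) / (2 * (k : ℝ) + 5)) ^ 2 = 1 := by rw [← hn]; field_simp
    rw [e1, one_mul]
    congr 3
    ring
  have hy1' : y1 ≤ 1 := hy1.trans (by rw [div_le_one (by positivity)]; linarith)
  refine nrm_eq (x := x + y1 / n) ?_ ?_ ?_ fun y hy hy' => ?_
  · have : 0 ≤ y1 / n := by positivity
    linarith
  · have : x + y1 / n = (1 + y1) / n := by rw [hx]; ring
    rw [this, div_le_one hnpos, hn]
    linarith
  · rw [hdd, abs_mul, ← hnrm, abs_mul, abs_of_pos (KK_pos k)]
    have : n * (y1 / n) = y1 := by field_simp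
    rw [this, abs_of_neg (by linarith)]
    ring
  · have e : y = x + (y - x) := by ring
    rw [e, hdd, abs_mul, ← hnrm, abs_mul, abs_of_pos (KK_pos k)]
    have h1 := hmax (n * (y - x)) (by
      rw [mul_sub, mul_comm n x, hxn]
      rw [hn] at *
      nlinarith) (by
      rw [mul_sub, mul_comm n x, hxn]
      rw [hn] at *
      nlinarith)
    calc nrm P * (KK k * |EE k (n * (y - x))|) ≤ nrm P * (KK k * -EE k y1) :=
          mul_le_mul_of_nonneg_left (mul_le_mul_of_nonneg_left h1 (KK_pos k).le) hpos.le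
      _ = _ := by ring

end Pool.Agent.X206.TU
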